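import Pool.Agent.Helper97.UDP.Par

/-!
# The region of the step polygon
-/

set_option autoImplicit false

namespace Pool.Agent.Helper97.UDP

open Pool.Agent.Helper20.Flip Set

namespace RegionAux

theorem mem_segment_h (a b c : ℝ) (p : Pt) :
    p ∈ segment ℝ ((a, c) : Pt) (b, c) ↔ p.2 = c ∧ p.1 ∈ uIcc a b := by
  rw [← Prod.image_mk_segment_left, segment_eq_uIcc]
  constructor
  · rintro ⟨y, hy, rfl⟩
    exact ⟨rfl, hy⟩
  · rintro ⟨h1, h2⟩
    exact ⟨p.1, h2, by ext <;> simp [h1]⟩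

theorem mem_segment_v (a b c : ℝ) (p : Pt) :
    p ∈ segment ℝ ((a, b) : Pt) (a, c) ↔ p.1 = a ∧ p.2 ∈ uIcc b c := by
  rw [← Prod.image_mk_segment_right, segment_eq_uIcc]
  constructor
  · rintro ⟨y, hy, rfl⟩
    exact ⟨rfl, hy⟩
  · rintro ⟨h1, h2⟩
    exact ⟨p.2, h2, by ext <;> simp [h1]⟩

/-- explicit description of the boundary curve -/
def OnC (K : ℕ) (x h : ℕ → ℝ) (p : Pt) : Prop :=
  (∃ i < K, x i ≤ p.1 ∧ p.1 ≤ x (i + 1) ∧ |p.2| = h i) ∨
  (∃ i, i + 1 < K ∧ p.1 = x (i + 1) ∧ |p.2| ∈ uIcc (h i) (h (i + 1))) ∨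
  (p.1 = x 0 ∧ |p.2| ≤ h 0) ∨ (p.1 = x K ∧ |p.2| ≤ h (K - 1))

variable {K n : ℕ} {x h : ℕ → ℝ} {V : ZMod n → Pt}

theorem lo0 (hV : StepVerts K x h V) {i : ℕ} (hi : i < K) :
    V ((2 * i : ℕ) : ZMod n) = (x i, -h i) := by
  have := hV.2.1 (2 * i) (by omega)
  rwa [show (2 * i + 1) / 2 = i by omega, show 2 * i / 2 = i by omega] at this

theorem lo1 (hV : StepVerts K x h V) {i : ℕ} (hi : i < K) :
    V ((2 * i + 1 : ℕ) : ZMod n) = (x (i + 1), -h i) := by
  have := hV.2.1 (2 * i + 1) (by omega)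
  rwa [show (2 * i + 1 + 1) / 2 = i + 1 by omega, show (2 * i + 1) / 2 = i by omega] at this

theorem up0 (hV : StepVerts K x h V) {i : ℕ} (hi : i < K) :
    V ((4 * K - 1 - 2 * i : ℕ) : ZMod n) = (x i, h i) := by
  have := hV.2.2 (2 * i) (by omega)
  rwa [show (2 * i + 1) / 2 = i by omega, show 2 * i / 2 = i by omega] at this

theorem up1 (hV : StepVerts K x h V) {i : ℕ} (hi : i < K) :
    V ((4 * K - 1 - (2 * i + 1) : ℕ) : ZMod n) = (x (i + 1), h i) := by
  have := hV.2.2 (2 * i + 1) (by omega)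
  rwa [show (2 * i + 1 + 1) / 2 = i + 1 by omega, show (2 * i + 1) / 2 = i by omega] at this

theorem abs_mem_uIcc {a b y : ℝ} (ha : 0 < a) (hb : 0 < b) (hy : y ∈ uIcc a b) :
    |y| ∈ uIcc a b := by
  rw [mem_uIcc] at hy ⊢
  rcases hy with hy | hy
  · rw [abs_of_pos (by linarith [hy.1])]; exact Or.inl hy
  · rw [abs_of_pos (by linarith [hy.1])]; exact Or.inr hy

theorem abs_mem_uIcc' {a b y : ℝ} (ha : 0 < a) (hb : 0 < b) (hy : y ∈ uIcc (-a) (-b)) :
    |y| ∈ uIcc a b := by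
  rw [← abs_neg]
  apply abs_mem_uIcc ha hb
  rw [mem_uIcc] at hy ⊢
  rcases hy with hy | hy
  · exact Or.inr ⟨by linarith [hy.2], by linarith [hy.1]⟩
  · exact Or.inl ⟨by linarith [hy.2], by linarith [hy.1]⟩

theorem mem_curve_iff (hK : 1 ≤ K) (hV : StepVerts K x h V) (hx : ∀ i < K, x i < x (i + 1))
    (hh : ∀ i < K, 0 < h i) (p : Pt) : p ∈ curve V ↔ OnC K x h p := by
  have hn : n = 4 * K := hV.1
  have : NeZero n := ⟨by omega⟩
  have hcyc : ((4 * K : ℕ) : ZMod n) = ((0 : ℕ) : ZMod n) := by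
    rw [← hn]; simp
  constructor
  · rintro ⟨e, he⟩
    obtain ⟨k, hk, rfl⟩ : ∃ k : ℕ, k < 4 * K ∧ (k : ZMod n) = e :=
      ⟨e.val, hn ▸ ZMod.val_lt e, ZMod.natCast_zmod_val e⟩
    have hcast : (k : ZMod n) + 1 = ((k + 1 : ℕ) : ZMod n) := by push_cast; rfl
    rw [hcast] at he
    have hcases : (∃ i, i < K ∧ k = 2 * i) ∨ (∃ i, i + 1 < K ∧ k = 2 * i + 1) ∨
        (k = 2 * (K - 1) + 1) ∨ (∃ i, i < K ∧ k = 4 * K - 1 - (2 * i + 1)) ∨
        (∃ i, i + 1 < K ∧ k = 4 * K - 1 - 2 * (i + 1)) ∨ k = 4 * K - 1 := by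
      rcases lt_or_ge k (2 * K) with h1 | h1
      · rcases Nat.even_or_odd' k with ⟨i, hi | hi⟩
        · exact Or.inl ⟨i, by omega, hi⟩
        · rcases lt_or_ge (i + 1) K with h2 | h2
          · exact Or.inr (Or.inl ⟨i, h2, hi⟩)
          · exact Or.inr (Or.inr (Or.inl (by omega)))
      · rcases Nat.even_or_odd' k with ⟨i, hi | hi⟩
        · exact Or.inr (Or.inr (Or.inr (Or.inl ⟨2 * K - 1 - i, by omega, by omega⟩)))
        · rcases Nat.lt_or_ge k (4 * K - 1) with h2 | h2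
          · exact Or.inr (Or.inr (Or.inr (Or.inr (Or.inl ⟨2 * K - 1 - i - 1, by omega,
              by omega⟩))))
          · exact Or.inr (Or.inr (Or.inr (Or.inr (Or.inr (by omega)))))
    rcases hcases with ⟨i, hi, rfl⟩ | ⟨i, hi, rfl⟩ | rfl | ⟨i, hi, rfl⟩ | ⟨i, hi, rfl⟩ | rfl
    · rw [lo0 hV hi, lo1 hV hi, mem_segment_h, uIcc_of_le (hx i hi).le] at he
      exact Or.inl ⟨i, hi, he.2.1, he.2.2, by rw [he.1, abs_neg, abs_of_pos (hh i hi)]⟩
    · rw [lo1 hV (by omega : i < K), show 2 * i + 1 + 1 = 2 * (i + 1) by ring, lo0 hV hi,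
        mem_segment_v] at he
      exact Or.inr (Or.inl ⟨i, hi, he.1, abs_mem_uIcc' (hh i (by omega)) (hh _ hi) he.2⟩)
    · rw [lo1 hV (by omega : K - 1 < K),
        show 2 * (K - 1) + 1 + 1 = 4 * K - 1 - (2 * (K - 1) + 1) by omega,
        up1 hV (by omega : K - 1 < K), mem_segment_v,
        uIcc_of_le (by linarith [hh (K - 1) (by omega)]), show K - 1 + 1 = K by omega] at he
      exact Or.inr (Or.inr (Or.inr ⟨he.1, abs_le.2 he.2⟩))
    · rw [up1 hV hi, show 4 * K - 1 - (2 * i + 1) + 1 = 4 * K - 1 - 2 * i by omega,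
        up0 hV hi, mem_segment_h, uIcc_of_ge (hx i hi).le] at he
      exact Or.inl ⟨i, hi, he.2.1, he.2.2, by rw [he.1, abs_of_pos (hh i hi)]⟩
    · rw [up0 hV hi, show 4 * K - 1 - 2 * (i + 1) + 1 = 4 * K - 1 - (2 * i + 1) by omega,
        up1 hV (by omega : i < K), mem_segment_v, uIcc_comm] at he
      exact Or.inr (Or.inl ⟨i, hi, he.1, abs_mem_uIcc (hh i (by omega)) (hh _ hi) he.2⟩)
    · have e1 := up0 hV (by omega : 0 < K)
      have e2 := lo0 hV (by omega : 0 < K)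
      rw [Nat.mul_zero, Nat.sub_zero] at e1
      rw [Nat.mul_zero] at e2
      rw [e1, show 4 * K - 1 + 1 = 4 * K by omega, hcyc, e2, mem_segment_v,
        uIcc_of_ge (by linarith [hh 0 (by omega)])] at he
      exact Or.inr (Or.inr (Or.inl ⟨he.1, abs_le.2 he.2⟩))
  · have key : ∀ k : ℕ, p ∈ segment ℝ (V (k : ZMod n)) (V ((k + 1 : ℕ) : ZMod n)) →
        p ∈ curve V := by
      intro k hk
      refine ⟨(k : ZMod n), ?_⟩
      rwa [show (k : ZMod n) + 1 = ((k + 1 : ℕ) : ZMod n) by push_cast; rfl]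
    rintro (⟨i, hi, h1, h2, h3⟩ | ⟨i, hi, h1, h2⟩ | ⟨h1, h2⟩ | ⟨h1, h2⟩)
    · rcases abs_choice p.2 with h4 | h4
      · apply key (4 * K - 1 - (2 * i + 1))
        rw [up1 hV hi, show 4 * K - 1 - (2 * i + 1) + 1 = 4 * K - 1 - 2 * i by omega,
          up0 hV hi, mem_segment_h, uIcc_of_ge (hx i hi).le]
        exact ⟨by rw [← h4, h3], h1, h2⟩
      · apply key (2 * i)
        rw [lo0 hV hi, lo1 hV hi, mem_segment_h, uIcc_of_le (hx i hi).le]
        exact ⟨by linarith, h1, h2⟩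
    · rcases abs_choice p.2 with h4 | h4
      · apply key (4 * K - 1 - 2 * (i + 1))
        rw [up0 hV hi, show 4 * K - 1 - 2 * (i + 1) + 1 = 4 * K - 1 - (2 * i + 1) by omega,
          up1 hV (by omega : i < K), mem_segment_v, uIcc_comm]
        exact ⟨h1, h4 ▸ h2⟩
      · apply key (2 * i + 1)
        rw [lo1 hV (by omega : i < K), show 2 * i + 1 + 1 = 2 * (i + 1) by ring, lo0 hV hi,
          mem_segment_v]
        refine ⟨h1, ?_⟩
        rw [h4, mem_uIcc] at h2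
        rw [mem_uIcc]
        rcases h2 with h2 | h2
        · exact Or.inr ⟨by linarith [h2.2], by linarith [h2.1]⟩
        · exact Or.inl ⟨by linarith [h2.2], by linarith [h2.1]⟩
    · apply key (4 * K - 1)
      have e1 := up0 hV (by omega : 0 < K)
      have e2 := lo0 hV (by omega : 0 < K)
      rw [Nat.mul_zero, Nat.sub_zero] at e1
      rw [Nat.mul_zero] at e2
      rw [e1, show 4 * K - 1 + 1 = 4 * K by omega, hcyc, e2, mem_segment_v,
        uIcc_of_ge (by linarith [hh 0 (by omega)])]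
      exact ⟨h1, abs_le.1 h2⟩
    · apply key (2 * (K - 1) + 1)
      rw [lo1 hV (by omega : K - 1 < K),
        show 2 * (K - 1) + 1 + 1 = 4 * K - 1 - (2 * (K - 1) + 1) by omega,
        up1 hV (by omega : K - 1 < K), mem_segment_v,
        uIcc_of_le (by linarith [hh (K - 1) (by omega)]), show K - 1 + 1 = K by omega]
      exact ⟨h1, abs_le.1 h2⟩

/-- the region as a set -/
def RR (K : ℕ) (x h : ℕ → ℝ) : Set Pt :=
  {p | ∃ i, i < K ∧ x i ≤ p.1 ∧ p.1 ≤ x (i + 1) ∧ |p.2| ≤ h i}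

theorem onC_subset {p : Pt} (hx : ∀ i < K, x i < x (i + 1)) (hK : 1 ≤ K) (hp : OnC K x h p) :
    p ∈ RR K x h := by
  rcases hp with ⟨i, hi, h1, h2, h3⟩ | ⟨i, hi, h1, h2⟩ | ⟨h1, h2⟩ | ⟨h1, h2⟩
  · exact ⟨i, hi, h1, h2, h3.le⟩
  · rcases mem_uIcc.1 h2 with h3 | h3
    · exact ⟨i + 1, hi, h1.ge, by rw [h1]; exact (hx _ hi).le, h3.2⟩
    · exact ⟨i, by omega, by rw [h1]; exact (hx i (by omega)).le, h1.le, h3.2⟩
  · exact ⟨0, by omega, h1.ge, by rw [h1]; exact (hx 0 (by omega)).le, h2⟩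
  · refine ⟨K - 1, by omega, ?_, ?_, h2⟩
    · have := hx (K - 1) (by omega)
      rw [show K - 1 + 1 = K by omega] at this
      rw [h1]; exact this.le
    · rw [show K - 1 + 1 = K by omega]; exact h1.le

theorem RR_eq : RR K x h = ⋃ i ∈ Finset.range K, Icc ((x i, -h i) : Pt) (x (i + 1), h i) := by
  ext p
  simp only [RR, mem_ofPred_eq, mem_iUnion, Finset.mem_range, mem_Icc, Prod.le_def, abs_le,
    exists_prop]
  constructor
  · rintro ⟨i, h1, h2, h3, h4, h5⟩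
    exact ⟨i, h1, ⟨h2, h4⟩, h3, h5⟩
  · rintro ⟨i, h1, ⟨h2, h4⟩, h3, h5⟩
    exact ⟨i, h1, h2, h3, h4, h5⟩

theorem isClosed_RR : IsClosed (RR K x h) := by
  rw [RR_eq]
  exact isClosed_biUnion_finset fun i _ => isClosed_Icc

theorem isBounded_RR : Bornology.IsBounded (RR K x h) := by
  rw [RR_eq]
  exact (Bornology.isBounded_biUnion_finset _).2 fun i _ => Metric.isBounded_Icc _ _

theorem box_interior (hx : ∀ i < K, x i < x (i + 1)) {j : ℕ} (hj : j + 1 < K) {p : Pt}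
    (hp : p.1 = x (j + 1)) (h1 : |p.2| < h j) (h2 : |p.2| < h (j + 1)) :
    p ∈ interior (RR K x h) := by
  rw [mem_interior]
  refine ⟨Ioo (x j) (x (j + 1 + 1)) ×ˢ Ioo (-min (h j) (h (j + 1))) (min (h j) (h (j + 1))),
    ?_, isOpen_Ioo.prod isOpen_Ioo, ?_⟩
  · rintro q ⟨⟨hq1, hq2⟩, hq3⟩
    have hq4 : |q.2| < min (h j) (h (j + 1)) := abs_lt.2 hq3
    rcases le_total q.1 (x (j + 1)) with h3 | h3
    · exact ⟨j, by omega, hq1.le, h3, (hq4.trans_le (min_le_left _ _)).le⟩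
    · exact ⟨j + 1, hj, h3, hq2.le, (hq4.trans_le (min_le_right _ _)).le⟩
  · refine ⟨⟨?_, ?_⟩, abs_lt.1 (lt_min h1 h2)⟩
    · rw [hp]; exact hx j (by omega)
    · rw [hp]; exact hx (j + 1) hj

theorem mem_interior_of {p : Pt} (hx : ∀ i < K, x i < x (i + 1)) (hp : p ∈ RR K x h)
    (hc : ¬ OnC K x h p) : p ∈ interior (RR K x h) := by
  obtain ⟨i, hi, h1, h2, h3⟩ := hp
  have h4 : |p.2| < h i := lt_of_le_of_ne h3 fun h5 => hc (Or.inl ⟨i, hi, h1, h2, h5⟩)
  rcases eq_or_lt_of_le h1 with h5 | h5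
  · rcases Nat.eq_zero_or_pos i with rfl | h6
    · exact absurd (Or.inr (Or.inr (Or.inl ⟨h5.symm, h3⟩))) hc
    · obtain ⟨j, rfl⟩ : ∃ j, i = j + 1 := ⟨i - 1, by omega⟩
      refine box_interior hx hi h5.symm ?_ h4
      by_contra h7
      exact hc (Or.inr (Or.inl ⟨j, hi, h5.symm, mem_uIcc.2 (Or.inl ⟨not_lt.1 h7, h3⟩)⟩))
  · rcases eq_or_lt_of_le h2 with h6 | h6
    · rcases Nat.lt_or_ge (i + 1) K with h7 | h7
      · refine box_interior hx h7 h6 h4 ?_
        by_contra h8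
        exact hc (Or.inr (Or.inl ⟨i, h7, h6, mem_uIcc.2 (Or.inr ⟨not_lt.1 h8, h3⟩)⟩))
      · obtain rfl : K = i + 1 := by omega
        exact absurd (Or.inr (Or.inr (Or.inr ⟨h6, h3⟩))) hc
    · rw [mem_interior]
      refine ⟨Ioo (x i) (x (i + 1)) ×ˢ Ioo (-h i) (h i), ?_, isOpen_Ioo.prod isOpen_Ioo, ?_⟩
      · rintro q ⟨⟨hq1, hq2⟩, hq3⟩
        exact ⟨i, hi, hq1.le, hq2.le, (abs_lt.2 hq3).le⟩
      · exact ⟨⟨h5, h6⟩, abs_lt.1 h4⟩

theorem vertical {a y y' : ℝ} (hy : |y| ≤ |y'|) (h' : ((a, y') : Pt) ∈ RR K x h) :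
    ((a, y) : Pt) ∈ RR K x h := by
  obtain ⟨i, hi, h1, h2, h3⟩ := h'
  exact ⟨i, hi, h1, h2, hy.trans h3⟩

theorem not_bounded_up (a b : ℝ) :
    ¬ Bornology.IsBounded {q : Pt | q.1 = a ∧ b ≤ q.2} := by
  intro hb
  obtain ⟨C, hC⟩ := isBounded_iff_forall_norm_le.1 hb
  have h1 := hC (a, |b| + |C| + 1) ⟨rfl, by
    have := le_abs_self b
    have := abs_nonneg C
    show b ≤ |b| + |C| + 1
    linarith⟩
  have h2 := norm_snd_le ((a, |b| + |C| + 1) : Pt)
  have h3 : |b| + |C| + 1 ≤ ‖|b| + |C| + 1‖ := le_abs_self _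
  have h4 := le_abs_self C
  have h5 := abs_nonneg b
  change ‖|b| + |C| + 1‖ ≤ _ at h2
  linarith

theorem not_bounded_down (a b : ℝ) :
    ¬ Bornology.IsBounded {q : Pt | q.1 = a ∧ q.2 ≤ b} := by
  intro hb
  obtain ⟨C, hC⟩ := isBounded_iff_forall_norm_le.1 hb
  have h1 := hC (a, -(|b| + |C| + 1)) ⟨rfl, by
    have := neg_abs_le b
    have := abs_nonneg C
    show -(|b| + |C| + 1) ≤ b
    linarith⟩
  have h2 := norm_snd_le ((a, -(|b| + |C| + 1)) : Pt)
  have h3 : |b| + |C| + 1 ≤ ‖-(|b| + |C| + 1)‖ := by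
    rw [norm_neg]; exact le_abs_self _
  have h4 := le_abs_self C
  have h5 := abs_nonneg b
  change ‖-(|b| + |C| + 1)‖ ≤ _ at h2
  linarith

end RegionAux

open RegionAux in
theorem step_region {K n : ℕ} {x h : ℕ → ℝ} {V : ZMod n → Pt} (hK : 1 ≤ K)
    (hV : StepVerts K x h V) (hx : ∀ i < K, x i < x (i + 1)) (hh : ∀ i < K, 0 < h i) :
    region V = {p | ∃ i, i < K ∧ x i ≤ p.1 ∧ p.1 ≤ x (i + 1) ∧ |p.2| ≤ h i} := by
  change region V = RR K x h
  have hC : ∀ p, p ∈ curve V ↔ OnC K x h p := mem_curve_iff hK hV hx hh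
  have hCR : curve V ⊆ RR K x h := fun p hp => onC_subset hx hK ((hC p).1 hp)
  ext p
  constructor
  · rintro (hp | hp)
    · exact hCR hp
    · by_contra hpR
      have hpC : p ∉ curve V := fun h => hpR (hCR h)
      rcases le_total 0 p.2 with h0 | h0
      · refine not_bounded_up p.1 p.2 (hp.subset ?_)
        refine IsPreconnected.subset_connectedComponentIn ?_ ⟨rfl, le_rfl⟩ ?_
        · apply Convex.isPreconnected
          rintro q ⟨hq1, hq2⟩ r ⟨hr1, hr2⟩ s t hs ht hst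
          refine ⟨?_, ?_⟩
          · show s * q.1 + t * r.1 = p.1
            rw [hq1, hr1, ← add_mul, hst, one_mul]
          · show p.2 ≤ s * q.2 + t * r.2
            nlinarith
        · rintro ⟨a, b⟩ ⟨hq1, hq2⟩ hq
          refine hpR ?_
          simp only at hq1 hq2
          have := vertical (a := a) (y := p.2) (y' := b)
            (by rw [abs_of_nonneg h0, abs_of_nonneg (h0.trans hq2)]; exact hq2) (hCR hq)
          rw [hq1] at this
          exact this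
      · refine not_bounded_down p.1 p.2 (hp.subset ?_)
        refine IsPreconnected.subset_connectedComponentIn ?_ ⟨rfl, le_rfl⟩ ?_
        · apply Convex.isPreconnected
          rintro q ⟨hq1, hq2⟩ r ⟨hr1, hr2⟩ s t hs ht hst
          refine ⟨?_, ?_⟩
          · show s * q.1 + t * r.1 = p.1
            rw [hq1, hr1, ← add_mul, hst, one_mul]
          · show s * q.2 + t * r.2 ≤ p.2
            nlinarith
        · rintro ⟨a, b⟩ ⟨hq1, hq2⟩ hq
          refine hpR ?_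
          simp only at hq1 hq2
          have := vertical (a := a) (y := p.2) (y' := b)
            (by rw [abs_of_nonpos h0, abs_of_nonpos (hq2.trans h0)]; linarith) (hCR hq)
          rw [hq1] at this
          exact this
  · intro hp
    by_cases hpC : p ∈ curve V
    · exact Or.inl hpC
    · right
      have hpI : p ∈ interior (RR K x h) := mem_interior_of hx hp fun h => hpC ((hC p).2 h)
      have hsub : connectedComponentIn (curve V)ᶜ p ⊆ interior (RR K x h) := by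
        refine IsPreconnected.subset_left_of_subset_union isOpen_interior
          (isClosed_RR (K := K) (x := x) (h := h)).isOpen_compl ?_ ?_ ?_
          isPreconnected_connectedComponentIn
        · exact disjoint_compl_right.mono_left interior_subset
        · intro q hq
          have hqC : q ∉ curve V := connectedComponentIn_subset _ _ hq
          by_cases hqR : q ∈ RR K x h
          · exact Or.inl (mem_interior_of hx hqR fun h => hqC ((hC q).2 h))
          · exact Or.inr hqR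
        · exact ⟨p, mem_connectedComponentIn hpC, hpI⟩
      exact isBounded_RR.subset (hsub.trans interior_subset)

end Pool.Agent.Helper97.UDP
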